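import Mathlib

/-! Ultrametric part: divided differences, roots of unity. -/

namespace Pool.Agent.Helper43Reg2

open Finset Polynomial

section base
variable (L : Type*) [NormedField L] [IsUltrametricDist L]

/-- the closed unit ball -/
def OO : Subring L where
  carrier := {x | ‖x‖ ≤ 1}
  mul_mem' := by
    intro a b ha hb
    simp only [Set.mem_ofPred_eq] at *
    rw [norm_mul]
    exact mul_le_one₀ ha (norm_nonneg _) hb
  one_mem' := by simp
  add_mem' := by
    intro a b ha hb
    simp only [Set.mem_ofPred_eq] at *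
    exact (IsUltrametricDist.norm_add_le_max a b).trans (max_le ha hb)
  zero_mem' := by simp
  neg_mem' := by
    intro a ha
    simp only [Set.mem_ofPred_eq] at *
    rwa [norm_neg]

variable {L} in
theorem mem_OO {x : L} : x ∈ OO L ↔ ‖x‖ ≤ 1 := Iff.rfl

/-- the open unit ball -/
def MM : Ideal (OO L) where
  carrier := {x | ‖(x : L)‖ < 1}
  add_mem' := by
    intro a b ha hb
    simp only [Set.mem_ofPred_eq] at *
    exact (IsUltrametricDist.norm_add_le_max _ _).trans_lt (max_lt ha hb)
  zero_mem' := by simp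
  smul_mem' := by
    intro c a ha
    simp only [Set.mem_ofPred_eq, smul_eq_mul, Subring.coe_mul, norm_mul] at *
    have hc : ‖(c : L)‖ ≤ 1 := c.2
    calc ‖(c : L)‖ * ‖(a : L)‖ ≤ 1 * ‖(a : L)‖ := mul_le_mul_of_nonneg_right hc (norm_nonneg _)
      _ = ‖(a : L)‖ := one_mul _
      _ < 1 := ha

variable {L}

theorem mem_MM {x : OO L} : x ∈ MM L ↔ ‖(x : L)‖ < 1 := Iff.rfl

instance : Nontrivial (OO L ⧸ MM L) := by
  rw [Ideal.Quotient.nontrivial_iff]
  intro h
  have : (1 : OO L) ∈ MM L := by rw [h]; trivial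
  rw [mem_MM] at this
  simp at this

theorem coeff_contra {ι : Type*} [DecidableEq ι] (I : Finset ι) (μ : ι → OO L) (hμ : ∀ i ∈ I, μ i ∈ MM L)
    (hinj : Set.InjOn μ I) (hI : I.Nonempty) (Q : (OO L)[X])
    (hQ : Q.map (Ideal.Quotient.mk (MM L)) = X ^ (I.card - 1))
    (hval : ∀ i ∈ I, ‖((Q.eval (μ i) : OO L) : L)‖ < ∏ j ∈ I.erase i, ‖((μ i : L) - μ j)‖) : False := by
  have hcard : 0 < I.card := hI.card_pos
  set f0 : (OO L)[X] := ∏ s ∈ I, (X - C (μ s)) with hf0
  have hmon : f0.Monic := monic_prod_of_monic _ _ fun s _ => monic_X_sub_C _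
  have hdeg : f0.natDegree = I.card := by
    rw [hf0, natDegree_prod_of_monic _ _ fun s _ => monic_X_sub_C _]
    simp
  have hroot : ∀ s ∈ I, f0.eval (μ s) = 0 := by
    intro s hs
    rw [hf0, eval_prod]
    exact Finset.prod_eq_zero hs (by simp)
  set q := Q %ₘ f0 with hq
  have hqval : ∀ s ∈ I, q.eval (μ s) = Q.eval (μ s) := by
    intro s hs
    have := congrArg (fun z => z.eval (μ s)) (modByMonic_add_div Q f0)
    simp only [eval_add, eval_mul, hroot s hs, zero_mul, add_zero] at this
    exact this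
  have hqdeg : q.degree < f0.degree := degree_modByMonic_lt Q hmon
  have hmapf : f0.map (Ideal.Quotient.mk (MM L)) = X ^ I.card := by
    rw [hf0, Polynomial.map_prod]
    have : ∀ s ∈ I, (X - C (μ s)).map (Ideal.Quotient.mk (MM L)) = X := by
      intro s hs
      rw [Polynomial.map_sub, map_X, map_C, (Ideal.Quotient.eq_zero_iff_mem).2 (hμ s hs), C_0, sub_zero]
    rw [Finset.prod_congr rfl this]
    simp
  have hmapq : q.map (Ideal.Quotient.mk (MM L)) = X ^ (I.card - 1) := by
    rw [hq, Polynomial.map_modByMonic _ hmon, hQ, hmapf,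
      modByMonic_eq_self_iff (monic_X_pow I.card), degree_X_pow, degree_X_pow]
    exact_mod_cast Nat.sub_lt hcard one_pos
  have hcoef : q.coeff (I.card - 1) - 1 ∈ MM L := by
    rw [← Ideal.Quotient.eq_zero_iff_mem, map_sub, ← coeff_map, hmapq, coeff_X_pow, if_pos rfl, map_one, sub_self]
  have hnorm : ‖((q.coeff (I.card - 1) : OO L) : L)‖ = 1 := by
    rw [mem_MM] at hcoef
    have h1 : ((q.coeff (I.card - 1) : OO L) : L) = 1 + ((q.coeff (I.card - 1) - 1 : OO L) : L) := by
      push_cast; ring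
    rw [h1, IsUltrametricDist.norm_add_eq_max_of_norm_ne_norm, norm_one, max_eq_left hcoef.le]
    rw [norm_one]; exact (ne_of_lt hcoef).symm
  -- Lagrange over `L`
  have hinj' : Set.InjOn (fun i => ((μ i : OO L) : L)) I := by
    intro a ha b hb hab
    exact hinj ha hb (Subtype.ext hab)
  set P : L[X] := q.map (OO L).subtype with hP
  have hPdeg : P.degree < I.card := by
    have h1 : f0.degree = I.card := by
      rw [Polynomial.degree_eq_natDegree hmon.ne_zero, hdeg]
    rw [h1] at hqdeg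
    exact lt_of_le_of_lt (degree_map_le) hqdeg
  have key := Lagrange.coeff_eq_sum hinj' hPdeg
  have hPc : P.coeff (I.card - 1) = ((q.coeff (I.card - 1) : OO L) : L) := by
    rw [hP, coeff_map]; rfl
  have hPe : ∀ i ∈ I, P.eval (μ i : L) = ((Q.eval (μ i) : OO L) : L) := by
    intro i hi
    rw [hP, eval_map, ← hqval i hi]
    exact Polynomial.eval₂_at_apply (OO L).subtype (μ i)
  rw [hPc] at key
  have hlt : ‖∑ i ∈ I, P.eval (μ i : L) / ∏ j ∈ I.erase i, ((μ i : L) - μ j)‖ < 1 := by
    have : Nonempty ι := ⟨hI.choose⟩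
    obtain ⟨i, hi, hle⟩ := IsUltrametricDist.exists_norm_finsetSum_le I
      (fun i => P.eval (μ i : L) / ∏ j ∈ I.erase i, ((μ i : L) - μ j))
    have hi' : i ∈ I := hi hI
    refine lt_of_le_of_lt hle ?_
    rw [norm_div, norm_prod, hPe i hi']
    have h2 := hval i hi'
    rw [div_lt_one (lt_of_le_of_lt (norm_nonneg _) h2)]
    exact h2
  rw [← key, hnorm] at hlt
  exact lt_irrefl _ hlt

end base

end Pool.Agent.Helper43Reg2
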