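import Mathlib
import Pool.Agent.Helper43_Reg2.Ultra

/-! Distances between the points `ϖ(β-α)/(1+αϖ)`. -/

namespace Pool.Agent.Helper43Reg2

open Finset Polynomial

section
variable {L : Type*} [NormedField L] [IsUltrametricDist L]

theorem norm_add_eq_left {a b : L} (h : ‖b‖ < ‖a‖) : ‖a + b‖ = ‖a‖ := by
  rw [IsUltrametricDist.norm_add_eq_max_of_norm_ne_norm h.ne', max_eq_left h.le]

theorem norm_sum_le_one {ι : Type*} (s : Finset ι) (f : ι → L) (h : ∀ i ∈ s, ‖f i‖ ≤ 1) : ‖∑ i ∈ s, f i‖ ≤ 1 := by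
  have : ∑ i ∈ s, f i ∈ OO L := (OO L).sum_mem h
  exact this

theorem norm_root {n : ℕ} (hn : n ≠ 0) {α : L} (h : α ^ n = 1) : ‖α‖ = 1 :=
  (pow_eq_one_iff_of_nonneg (norm_nonneg _) hn).1 (by rw [← norm_pow, h, norm_one])

theorem norm_sub_le_one {a b : L} (ha : ‖a‖ ≤ 1) (hb : ‖b‖ ≤ 1) : ‖a - b‖ ≤ 1 :=
  (OO L).sub_mem (x := a) (y := b) ha hb

/-- distinct `n`-th roots of unity are at distance `1` -/
theorem root_one {n : ℕ} (hnn : ‖(n : L)‖ = 1) {γ : L} (h : γ ^ n = 1) (h1 : γ ≠ 1) : ‖γ - 1‖ = 1 := by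
  have hn : n ≠ 0 := by rintro rfl; simp at hnn
  have hg : ‖γ‖ = 1 := norm_root hn h
  have hle : ‖γ - 1‖ ≤ 1 := norm_sub_le_one hg.le (by rw [norm_one])
  have hsum : ∑ k ∈ range n, γ ^ k = 0 := by
    have := geom_sum_mul γ n
    rw [h, sub_self] at this
    exact (mul_eq_zero.1 this).resolve_right (sub_ne_zero.2 h1)
  have e : (n : L) = -((γ - 1) * ∑ k ∈ range n, ∑ l ∈ range k, γ ^ l) := by
    have h2 : ∑ k ∈ range n, (γ ^ k - 1) = -(n : L) := by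
      rw [Finset.sum_sub_distrib, hsum, Finset.sum_const, card_range, nsmul_eq_mul, mul_one, zero_sub]
    rw [← neg_eq_iff_eq_neg, ← h2, Finset.mul_sum]
    refine Finset.sum_congr rfl fun k _ => ?_
    rw [mul_comm, geom_sum_mul]
  have h3 : (1 : ℝ) ≤ ‖γ - 1‖ := by
    rw [← hnn, e, norm_neg, norm_mul]
    refine mul_le_of_le_one_right (norm_nonneg _) ?_
    refine norm_sum_le_one _ _ fun k _ => norm_sum_le_one _ _ fun l _ => ?_
    rw [norm_pow, hg, one_pow]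
  exact le_antisymm hle h3

theorem root_dist {n : ℕ} (hnn : ‖(n : L)‖ = 1) {α β : L} (ha : α ^ n = 1) (hb : β ^ n = 1) (h : α ≠ β) :
    ‖α - β‖ = 1 := by
  have hn : n ≠ 0 := by rintro rfl; simp at hnn
  have hb0 : β ≠ 0 := by
    rintro rfl
    rw [zero_pow hn] at hb
    exact zero_ne_one hb
  have e : α - β = β * (α / β - 1) := by field_simp
  rw [e, norm_mul, norm_root hn hb, one_mul]
  refine root_one hnn (by rw [div_pow, ha, hb, div_one]) ?_
  intro h1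
  exact h ((div_eq_one_iff_eq hb0).1 h1)

/-- `s^N = s` up to multiples of `p` -/
def Tei (p N : ℕ) (s : L) : Prop := ‖s‖ ≤ 1 ∧ ∃ t : L, ‖t‖ ≤ 1 ∧ s ^ (p ^ N) = s + p * t

theorem Tei.add {p N : ℕ} (hp : p.Prime) {s s' : L} (h : Tei p N s) (h' : Tei p N s') : Tei p N (s + s') := by
  obtain ⟨h1, t, ht, e⟩ := h
  obtain ⟨h1', t', ht', e'⟩ := h'
  obtain ⟨r, hr⟩ := exists_add_pow_prime_pow_eq hp (⟨s, h1⟩ : OO L) ⟨s', h1'⟩ N
  refine ⟨(OO L).add_mem h1 h1', t + t' + s * s' * r,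
    (OO L).add_mem ((OO L).add_mem ht ht') ((OO L).mul_mem ((OO L).mul_mem h1 h1') r.2), ?_⟩
  have := congrArg (fun z : OO L => (z : L)) hr
  push_cast at this
  rw [this, e, e']
  ring

theorem Tei.root {p n : ℕ} (hp : p.Prime) (hn : n ≠ 0) (hcop : Nat.Coprime p n) {α : L} (h : α ^ n = 1) :
    Tei p n.totient α := by
  refine ⟨(norm_root hn h).le, 0, by simp, ?_⟩
  rw [mul_zero, add_zero]
  have h0 : 1 ≤ p ^ n.totient := Nat.one_le_pow _ _ hp.pos
  have h2 : n ∣ p ^ n.totient - 1 := (Nat.modEq_iff_dvd' h0).1 (Nat.ModEq.pow_totient hcop).symm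
  obtain ⟨c, hc⟩ := h2
  have h3 : p ^ n.totient = n * c + 1 := by omega
  rw [h3, pow_succ, pow_mul, h, one_pow, one_mul]

theorem Tei.neg {p N : ℕ} (hp : Odd p) {s : L} (h : Tei p N s) : Tei p N (-s) := by
  obtain ⟨h1, t, ht, e⟩ := h
  refine ⟨by rwa [norm_neg], -t, by rwa [norm_neg], ?_⟩
  rw [Odd.neg_pow (hp.pow), e]
  ring

theorem Tei.gap {p N : ℕ} (hp : 2 ≤ p) (hN : N ≠ 0) {s : L} (h : Tei p N s) (hs : ‖s‖ < 1) : ‖s‖ ≤ ‖(p : L)‖ := by
  obtain ⟨h1, t, ht, e⟩ := h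
  have hpN : p ^ N - 1 ≠ 0 := by
    have := Nat.one_lt_pow hN hp
    omega
  have e2 : s * (s ^ (p ^ N - 1) - 1) = p * t := by
    rw [mul_sub, mul_one, ← pow_succ', Nat.sub_add_cancel (Nat.one_le_pow _ _ (by omega)), e]
    ring
  have h2 : ‖s ^ (p ^ N - 1) - 1‖ = 1 := by
    rw [norm_sub_rev, sub_eq_add_neg, norm_add_eq_left, norm_one]
    rw [norm_neg, norm_one, norm_pow]
    exact pow_lt_one₀ (norm_nonneg _) hs hpN
  have h3 := congrArg norm e2
  rw [norm_mul, h2, mul_one, norm_mul] at h3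
  rw [h3]
  exact mul_le_of_le_one_right (norm_nonneg _) ht

/-- the points -/
noncomputable def mu (ϖ : L) (z : L × L) : L := ϖ * (z.2 - z.1) / (1 + z.1 * ϖ)

/-- the difference of differences -/
def Del (z w : L × L) : L := (z.2 - z.1) - (w.2 - w.1)

theorem mu_sub (ϖ : L) (z w : L × L) (hz : 1 + z.1 * ϖ ≠ 0) (hw : 1 + w.1 * ϖ ≠ 0) :
    (1 + z.1 * ϖ) * (1 + w.1 * ϖ) * (mu ϖ z - mu ϖ w) = ϖ * Del z w + ϖ ^ 2 * (z.2 * w.1 - z.1 * w.2) := by
  have h1 : mu ϖ z * (1 + z.1 * ϖ) = ϖ * (z.2 - z.1) := div_mul_cancel₀ _ hz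
  have h2 : mu ϖ w * (1 + w.1 * ϖ) = ϖ * (w.2 - w.1) := div_mul_cancel₀ _ hw
  unfold Del
  linear_combination (1 + w.1 * ϖ) * h1 - (1 + z.1 * ϖ) * h2

/-- the standing hypotheses -/
structure Std (p n : ℕ) (ϖ : L) : Prop where
  hp : p.Prime
  hodd : Odd p
  hn : 2 ≤ n
  hcop : Nat.Coprime p n
  hnn : ‖(n : L)‖ = 1
  hϖ : ϖ ^ n = p
  hp1 : ‖(p : L)‖ < 1
  hp0 : 0 < ‖(p : L)‖

/-- pairs of roots of unity -/
def RT (n : ℕ) (z : L × L) : Prop := z.1 ^ n = 1 ∧ z.2 ^ n = 1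

variable {p n : ℕ} {ϖ : L} (S : Std p n ϖ)
include S

theorem Std.rho_pow : ‖ϖ‖ ^ n = ‖(p : L)‖ := by rw [← norm_pow, S.hϖ]

theorem Std.rho_lt : ‖ϖ‖ < 1 := by
  have hn := S.hn
  by_contra h
  have h1 : 1 ≤ ‖ϖ‖ ^ n := one_le_pow₀ (not_lt.1 h)
  rw [S.rho_pow] at h1
  exact absurd S.hp1 (not_lt.2 h1)

theorem Std.rho_pos : 0 < ‖ϖ‖ := by
  have hn := S.hn
  rcases (norm_nonneg ϖ).eq_or_lt with h | h
  · exfalso
    have h1 := S.rho_pow
    rw [← h, zero_pow (by omega)] at h1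
    exact absurd S.hp0 (by rw [← h1]; exact lt_irrefl _)
  · exact h

theorem Std.norm_den {α : L} (h : α ^ n = 1) : ‖1 + α * ϖ‖ = 1 := by
  have hn := S.hn
  rw [norm_add_eq_left, norm_one]
  rw [norm_one, norm_mul, norm_root (by omega) h, one_mul]
  exact S.rho_lt

theorem Std.den_ne {α : L} (h : α ^ n = 1) : 1 + α * ϖ ≠ 0 := by
  intro h0
  have := S.norm_den h
  rw [h0, norm_zero] at this
  exact zero_ne_one this

theorem Std.norm_mu_sub {z w : L × L} (hz : RT n z) (hw : RT n w) :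
    ‖mu ϖ z - mu ϖ w‖ = ‖ϖ * Del z w + ϖ ^ 2 * (z.2 * w.1 - z.1 * w.2)‖ := by
  rw [← mu_sub ϖ z w (S.den_ne hz.1) (S.den_ne hw.1), norm_mul, norm_mul, S.norm_den hz.1, S.norm_den hw.1, one_mul, one_mul]

theorem Std.norm_cross_le {z w : L × L} (hz : RT n z) (hw : RT n w) : ‖z.2 * w.1 - z.1 * w.2‖ ≤ 1 := by
  have hn := S.hn
  have hn0 : n ≠ 0 := by omega
  apply norm_sub_le_one
  · rw [norm_mul, norm_root hn0 hz.2, norm_root hn0 hw.1, one_mul]
  · rw [norm_mul, norm_root hn0 hz.1, norm_root hn0 hw.2, one_mul]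

theorem Std.norm_Del_le {z w : L × L} (hz : RT n z) (hw : RT n w) : ‖Del z w‖ ≤ 1 := by
  have hn := S.hn
  have hn0 : n ≠ 0 := by omega
  exact norm_sub_le_one (norm_sub_le_one (norm_root hn0 hz.2).le (norm_root hn0 hz.1).le)
    (norm_sub_le_one (norm_root hn0 hw.2).le (norm_root hn0 hw.1).le)

/-- the generic distance -/
theorem Std.dist_one {z w : L × L} (hz : RT n z) (hw : RT n w) (h : ‖Del z w‖ = 1) :
    ‖mu ϖ z - mu ϖ w‖ = ‖ϖ‖ := by
  rw [S.norm_mu_sub hz hw, norm_add_eq_left, norm_mul, h, mul_one]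
  rw [norm_mul, norm_mul, h, mul_one, norm_pow, sq, mul_assoc]
  have h1 := S.norm_cross_le hz hw
  have h2 : ‖ϖ‖ * ‖z.2 * w.1 - z.1 * w.2‖ < 1 :=
    lt_of_le_of_lt (mul_le_of_le_one_right (norm_nonneg _) h1) S.rho_lt
  exact mul_lt_of_lt_one_right S.rho_pos h2

/-- `‖Del‖ < 1` for two different points: the first coordinates are different, no point is diagonal -/
theorem Std.close {z w : L × L} (hz : RT n z) (hw : RT n w) (hzw : z ≠ w) (h : ‖Del z w‖ < 1) : z.1 ≠ w.1 := by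
  intro h1
  unfold Del at h
  rw [h1, sub_sub_sub_cancel_right] at h
  have h2 : z.2 ≠ w.2 := fun h2 => hzw (Prod.ext h1 h2)
  rw [root_dist S.hnn hz.2 hw.2 h2] at h
  exact lt_irrefl _ h

theorem Std.close_diag {z w : L × L} (hw : RT n w) (hz : z.1 = z.2) (hww : w.1 ≠ w.2) :
    ‖Del z w‖ = 1 := by
  unfold Del
  rw [hz, sub_self, zero_sub, norm_neg]
  exact root_dist S.hnn hw.2 hw.1 hww.symm

/-- the distance of close points -/
theorem Std.dist_close {z w : L × L} (hz : RT n z) (hw : RT n w) (hz' : z.1 ≠ z.2) (hzw : z ≠ w)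
    (h : ‖Del z w‖ < 1) : ‖mu ϖ z - mu ϖ w‖ = ‖ϖ‖ ^ 2 := by
  have hn := S.hn
  have hn0 : n ≠ 0 := by omega
  have hne := S.close hz hw hzw h
  have hcr : z.2 * w.1 ≠ z.1 * w.2 := by
    intro h1
    have e : z.1 * Del z w = (z.1 - w.1) * (z.2 - z.1) := by
      unfold Del
      linear_combination h1
    have h2 := congrArg norm e
    rw [norm_mul, norm_mul, norm_root hn0 hz.1, one_mul, root_dist S.hnn hz.1 hw.1 hne,
      root_dist S.hnn hz.2 hz.1 hz'.symm, one_mul] at h2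
    rw [h2] at h
    exact lt_irrefl _ h
  have hcr1 : ‖z.2 * w.1 - z.1 * w.2‖ = 1 :=
    root_dist S.hnn (by rw [mul_pow, hz.2, hw.1, one_mul]) (by rw [mul_pow, hz.1, hw.2, one_mul]) hcr
  have hT : Tei p n.totient (Del z w) := by
    have hR : ∀ α : L, α ^ n = 1 → Tei p n.totient α := fun α ha => Tei.root S.hp hn0 S.hcop ha
    have h1 : Del z w = (z.2 + -z.1) + (-w.2 + w.1) := by unfold Del; ring
    rw [h1]
    exact ((hR _ hz.2).add S.hp ((hR _ hz.1).neg S.hodd)).add S.hp (((hR _ hw.2).neg S.hodd).add S.hp (hR _ hw.1))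
  have hgap := hT.gap S.hp.two_le (Nat.totient_pos.2 (by omega)).ne' h
  rw [← S.rho_pow] at hgap
  rw [S.norm_mu_sub hz hw, add_comm, norm_add_eq_left, norm_mul, hcr1, mul_one, norm_pow]
  rw [norm_mul, norm_mul, hcr1, mul_one, norm_pow]
  have h3 : ‖Del z w‖ ≤ ‖ϖ‖ ^ 2 := hgap.trans (pow_le_pow_of_le_one (norm_nonneg _) S.rho_lt.le hn)
  calc ‖ϖ‖ * ‖Del z w‖ ≤ ‖ϖ‖ * ‖ϖ‖ ^ 2 := mul_le_mul_of_nonneg_left h3 (norm_nonneg _)
    _ < 1 * ‖ϖ‖ ^ 2 := mul_lt_mul_of_pos_right S.rho_lt (pow_pos S.rho_pos 2)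
    _ = ‖ϖ‖ ^ 2 := one_mul _

/-- Lower bound for the product of distances. -/
theorem Std.prod_dist [DecidableEq L] (I : Finset (L × L)) (RI : ∀ z ∈ I, RT n z) (z0 : L × L)
    (hz0 : z0.1 = z0.2) (hI : ∀ z ∈ I, z ≠ z0 → z.1 ≠ z.2) (R : Finset L) (hR : ∀ α : L, α ^ n = 1 → α ∈ R)
    (hRc : R.card ≤ n) (z : L × L) (hz : z ∈ I) :
    ‖ϖ‖ ^ ((I.card - 1) + (n - 1)) ≤ ∏ w ∈ I.erase z, ‖mu ϖ z - mu ϖ w‖ := by
  classical
  have hlow : ∀ w ∈ I.erase z, ‖ϖ‖ * (if ‖Del z w‖ < 1 then ‖ϖ‖ else 1) ≤ ‖mu ϖ z - mu ϖ w‖ := by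
    intro w hw
    rw [mem_erase] at hw
    obtain ⟨hwz, hwI⟩ := hw
    split_ifs with h
    · -- neither is diagonal
      have hzd : z.1 ≠ z.2 := by
        apply hI z hz
        rintro rfl
        have := S.close_diag (RI w hwI) hz0 (hI w hwI hwz)
        rw [this] at h
        exact lt_irrefl _ h
      rw [S.dist_close (RI z hz) (RI w hwI) hzd hwz.symm h, sq]
    · have h1 := S.norm_Del_le (RI z hz) (RI w hwI)
      rw [S.dist_one (RI z hz) (RI w hwI) (le_antisymm h1 (not_lt.1 h)), mul_one]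
  refine le_trans ?_ (Finset.prod_le_prod (fun w _ => ?_) hlow)
  · rw [Finset.prod_mul_distrib, Finset.prod_const, Finset.prod_ite, Finset.prod_const, Finset.prod_const_one, mul_one,
      card_erase_of_mem hz, pow_add]
    refine mul_le_mul_of_nonneg_left ?_ (pow_nonneg (norm_nonneg _) _)
    apply pow_le_pow_of_le_one (norm_nonneg _) S.rho_lt.le
    have hzR : z.1 ∈ R := hR _ (RI z hz).1
    have h1 : (R.erase z.1).card ≤ n - 1 := by
      rw [card_erase_of_mem hzR]; omega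
    refine le_trans ?_ h1
    apply Finset.card_le_card_of_injOn Prod.fst
    · intro w hw
      rw [mem_coe, mem_filter, mem_erase] at hw
      rw [mem_coe, mem_erase]
      obtain ⟨⟨h2, h3⟩, h4⟩ := hw
      exact ⟨(S.close (RI z hz) (RI w h3) h2.symm h4).symm, hR _ (RI w h3).1⟩
    · intro w hw v hv hwv
      rw [mem_coe, mem_filter, mem_erase] at hw hv
      obtain ⟨⟨h2, h3⟩, h4⟩ := hw
      obtain ⟨⟨k2, k3⟩, k4⟩ := hv
      by_contra hne
      have h5 : w.2 ≠ v.2 := fun h5 => hne (Prod.ext hwv h5)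
      have h6 := root_dist S.hnn (RI w h3).2 (RI v k3).2 h5
      have h7 : w.2 - v.2 = Del z v + -Del z w := by
        unfold Del
        rw [hwv]
        ring
      rw [h7] at h6
      have h8 : ‖Del z v + -Del z w‖ < 1 :=
        (IsUltrametricDist.norm_add_le_max _ _).trans_lt (max_lt k4 (by rwa [norm_neg]))
      rw [h6] at h8
      exact lt_irrefl _ h8
  · split_ifs
    · exact mul_nonneg (norm_nonneg _) (norm_nonneg _)
    · exact mul_nonneg (norm_nonneg _) zero_le_one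

theorem Std.norm_mu {z : L × L} (hz : RT n z) : ‖mu ϖ z‖ < 1 := by
  have hn := S.hn
  have hn0 : n ≠ 0 := by omega
  unfold mu
  rw [norm_div, S.norm_den hz.1, div_one, norm_mul]
  have h1 : ‖z.2 - z.1‖ ≤ 1 := norm_sub_le_one (norm_root hn0 hz.2).le (norm_root hn0 hz.1).le
  exact lt_of_le_of_lt (mul_le_of_le_one_right (norm_nonneg _) h1) S.rho_lt

/-- The ultrametric contradiction. -/
theorem Std.contra (R : Finset L) (hR : ∀ α : L, α ∈ R ↔ α ^ n = 1) (hRc : R.card = n)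
    (hpn : p + n ≤ n ^ 2 + 1) (r : ℕ) (hr : p + n ≤ n * r + 1) (g : (OO L)[X]) (μ : L × L → OO L)
    (hμ : ∀ z, RT n z → ((μ z : OO L) : L) = mu ϖ z)
    (hval : ∀ z, RT n z → ‖(((X ^ (p - 1) + C (p : OO L) * (X * g)).eval (μ z) : OO L) : L)‖ ≤ ‖(p : L)‖ ^ r) :
    False := by
  classical
  have hp2 := S.hp.two_le
  have hn := S.hn
  have h1R : (1 : L) ∈ R := (hR 1).2 (one_pow n)
  have hoff : p - 1 ≤ R.offDiag.card := by
    rw [Finset.offDiag_card, hRc]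
    rw [sq] at hpn
    omega
  obtain ⟨T, hT, hTc⟩ := Finset.exists_subset_card_eq hoff
  have hTm : ∀ z ∈ T, z.1 ∈ R ∧ z.2 ∈ R ∧ z.1 ≠ z.2 := fun z hz => Finset.mem_offDiag.1 (hT hz)
  have hnot : ((1 : L), (1 : L)) ∉ T := fun h => (hTm _ h).2.2 rfl
  set I : Finset (L × L) := insert (1, 1) T with hI
  have hIc : I.card = p := by
    rw [hI, card_insert_of_notMem hnot, hTc]
    omega
  have RI : ∀ z ∈ I, RT n z := by
    intro z hz
    rw [hI, mem_insert] at hz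
    rcases hz with rfl | hz
    · exact ⟨one_pow n, one_pow n⟩
    · exact ⟨(hR _).1 (hTm z hz).1, (hR _).1 (hTm z hz).2.1⟩
  have hId : ∀ z ∈ I, z ≠ (1, 1) → z.1 ≠ z.2 := by
    intro z hz hne
    rw [hI, mem_insert] at hz
    rcases hz with rfl | hz
    · exact absurd rfl hne
    · exact (hTm z hz).2.2
  have hprod : ∀ z ∈ I, ‖(p : L)‖ ^ r < ∏ w ∈ I.erase z, ‖((μ z : OO L) : L) - ((μ w : OO L) : L)‖ := by
    intro z hz
    have h1 := S.prod_dist I RI (1, 1) rfl hId R (fun α h => (hR α).2 h) hRc.le z hz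
    have h2 : ∏ w ∈ I.erase z, ‖((μ z : OO L) : L) - ((μ w : OO L) : L)‖ = ∏ w ∈ I.erase z, ‖mu ϖ z - mu ϖ w‖ := by
      refine Finset.prod_congr rfl fun w hw => ?_
      rw [hμ z (RI z hz), hμ w (RI w (mem_of_mem_erase hw))]
    rw [h2]
    refine lt_of_lt_of_le ?_ h1
    rw [← S.rho_pow, ← pow_mul]
    apply pow_lt_pow_right_of_lt_one₀ S.rho_pos S.rho_lt
    rw [hIc]
    omega
  have hinj : Set.InjOn μ I := by
    intro z hz w hw hzw
    by_contra hne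
    have h1 := hprod z hz
    have h2 : ∏ w ∈ I.erase z, ‖((μ z : OO L) : L) - ((μ w : OO L) : L)‖ = 0 := by
      apply Finset.prod_eq_zero (i := w)
      · rw [mem_erase]; exact ⟨fun h => hne h.symm, hw⟩
      · rw [hzw, sub_self, norm_zero]
    rw [h2] at h1
    exact absurd h1 (not_lt.2 (pow_nonneg (norm_nonneg _) _))
  refine coeff_contra I μ ?_ hinj ⟨(1, 1), mem_insert_self _ _⟩ (X ^ (p - 1) + C (p : OO L) * (X * g)) ?_ ?_
  · intro z hz
    rw [mem_MM, hμ z (RI z hz)]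
    exact S.norm_mu (RI z hz)
  · rw [Polynomial.map_add, Polynomial.map_mul, Polynomial.map_pow, map_X, map_C, hIc]
    have h1 : (Ideal.Quotient.mk (MM L)) (p : OO L) = 0 := by
      rw [Ideal.Quotient.eq_zero_iff_mem, mem_MM]
      push_cast
      exact S.hp1
    rw [h1, C_0, zero_mul, add_zero]
  · intro z hz
    exact lt_of_le_of_lt (hval z (RI z hz)) (hprod z hz)

end

end Pool.Agent.Helper43Reg2
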