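import Mathlib
import Pool.Agent.Helper24_Reg.Irr2

/-! Evaluation of polynomials in `D = conj_x - 1` at the eigenvectors of `x`. -/

namespace Pool.Agent.Helper43Reg2

open Finset Matrix Polynomial Pool.Agent.Helper24Reg

section
variable {R S : Type*} [CommRing R] [CommRing S] {n : ℕ} (φ : R →+* S)

/-- the functional `A ↦ u A v` -/
def FF (u v : Fin n → S) (A : Matrix (Fin n) (Fin n) R) : S := u ⬝ᵥ (A.map φ *ᵥ v)

theorem FF_add (u v : Fin n → S) (A B : Matrix (Fin n) (Fin n) R) : FF φ u v (A + B) = FF φ u v A + FF φ u v B := by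
  unfold FF
  rw [Matrix.map_add _ (map_add φ), Matrix.add_mulVec, dotProduct_add]

theorem FF_sub (u v : Fin n → S) (A B : Matrix (Fin n) (Fin n) R) : FF φ u v (A - B) = FF φ u v A - FF φ u v B := by
  unfold FF
  rw [Matrix.map_sub _ (map_sub φ), Matrix.sub_mulVec, dotProduct_sub]

theorem FF_smul (u v : Fin n → S) (c : R) (A : Matrix (Fin n) (Fin n) R) : FF φ u v (c • A) = φ c * FF φ u v A := by
  unfold FF
  have : (c • A).map φ = φ c • A.map φ := by
    ext i j; simp
  rw [this, Matrix.smul_mulVec, dotProduct_smul, smul_eq_mul]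

theorem FF_mul_left {u v : Fin n → S} {lam : S} (B A : Matrix (Fin n) (Fin n) R) (h : u ᵥ* B.map φ = lam • u) :
    FF φ u v (B * A) = lam * FF φ u v A := by
  unfold FF
  rw [Matrix.map_mul, ← Matrix.mulVec_mulVec, Matrix.dotProduct_mulVec, h, smul_dotProduct, smul_eq_mul]

theorem FF_mul_right {u v : Fin n → S} {lam : S} (A B : Matrix (Fin n) (Fin n) R) (h : B.map φ *ᵥ v = lam • v) :
    FF φ u v (A * B) = lam * FF φ u v A := by
  unfold FF
  rw [Matrix.map_mul, ← Matrix.mulVec_mulVec, h, Matrix.mulVec_smul, dotProduct_smul, smul_eq_mul]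

/-- `D` acts on the functional by a scalar -/
theorem FF_DL [IsDomain S] {u v : Fin n → S} {lam lam' μ : S} (x : GL (Fin n) R) (hu : u ᵥ* x.1.map φ = lam • u)
    (hv : x.1.map φ *ᵥ v = lam' • v) (hlam : lam ≠ 0) (hμ : lam * μ = lam' - lam) (A : Matrix (Fin n) (Fin n) R) :
    FF φ u v (DL R x A) = μ * FF φ u v A := by
  rw [DL_apply, FF_sub]
  have h1 : lam * FF φ u v ((x⁻¹).1 * (A * x.1)) = lam' * FF φ u v A := by
    rw [← FF_mul_left φ x.1 _ hu, ← FF_mul_right φ A x.1 hv, ← mul_assoc, Units.mul_inv, one_mul]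
  apply mul_left_cancel₀ hlam
  rw [mul_sub, h1, ← mul_assoc, hμ, sub_mul]

theorem FF_aeval {u v : Fin n → S} {μ : S} (T : Module.End R (Matrix (Fin n) (Fin n) R))
    (h : ∀ A, FF φ u v (T A) = μ * FF φ u v A) (Q : R[X]) (A : Matrix (Fin n) (Fin n) R) :
    FF φ u v (aeval T Q A) = (Q.map φ).eval μ * FF φ u v A := by
  induction Q using Polynomial.induction_on' generalizing A with
  | add P Q hP hQ =>
    rw [map_add, LinearMap.add_apply, FF_add, hP, hQ, Polynomial.map_add, eval_add, add_mul]
  | monomial k c =>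
    rw [aeval_monomial, Module.End.mul_apply, Module.algebraMap_end_apply, FF_smul, Polynomial.map_monomial, eval_monomial,
      mul_assoc]
    congr 1
    induction k generalizing A with
    | zero => rw [pow_zero, pow_zero, Module.End.one_apply, one_mul]
    | succ k ih => rw [pow_succ, Module.End.mul_apply, ih, h, pow_succ, mul_assoc]

theorem map_DL (x : GL (Fin n) R) (A : Matrix (Fin n) (Fin n) R) :
    (DL R x A).map φ = DL S (Matrix.GeneralLinearGroup.map φ x) (A.map φ) := by
  rw [DL_apply, DL_apply, Matrix.map_sub _ (map_sub φ), Matrix.map_mul, Matrix.map_mul]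
  rfl

theorem map_aeval_DL (x : GL (Fin n) R) (Q : R[X]) (A : Matrix (Fin n) (Fin n) R) :
    (aeval (DL R x) Q A).map φ = aeval (DL S (Matrix.GeneralLinearGroup.map φ x)) (Q.map φ) (A.map φ) := by
  induction Q using Polynomial.induction_on' generalizing A with
  | add P Q hP hQ =>
    rw [map_add, LinearMap.add_apply, Matrix.map_add _ (map_add φ), hP, hQ, Polynomial.map_add, map_add, LinearMap.add_apply]
  | monomial k c =>
    rw [aeval_monomial, Module.End.mul_apply, Module.algebraMap_end_apply, Polynomial.map_monomial, aeval_monomial,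
      Module.End.mul_apply, Module.algebraMap_end_apply]
    have h1 : ∀ B : Matrix (Fin n) (Fin n) R, (c • B).map φ = φ c • B.map φ := by
      intro B; ext i j; simp
    rw [h1]
    congr 1
    induction k generalizing A with
    | zero => rw [pow_zero, pow_zero, Module.End.one_apply, Module.End.one_apply]
    | succ k ih => rw [pow_succ, Module.End.mul_apply, ih, map_DL, pow_succ, Module.End.mul_apply]

variable (n) in
/-- the left eigenvector -/
def uu (ω : S) : Fin n → S := fun a => ω ^ (n - 1 - a.val)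

variable (n) in
/-- the right eigenvector -/
def vv (ω : S) : Fin n → S := fun a => ω ^ a.val

theorem uu_eig (hn : 2 ≤ n) (q : ℕ) {ω : S} (h : ω ^ n = q) : uu n ω ᵥ* (1 + PiM R q n n).map φ = (1 + ω) • uu n ω := by
  have h1 := map_PiM φ q n n
  rw [RingHom.mapMatrix_apply] at h1
  rw [h1, Matrix.vecMul_add, Matrix.vecMul_one, add_smul, one_smul]
  congr 1
  ext c
  rw [Matrix.vecMul, dotProduct, Pi.smul_apply, smul_eq_mul]
  rcases Nat.eq_zero_or_pos c.val with hc | hc
  · rw [Finset.sum_eq_single (⟨n - 1, by omega⟩ : Fin n)]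
    · rw [PiM_apply]
      simp only [uu]
      rw [hc, if_neg (by omega), if_pos (by omega), zero_add, mul_one, Nat.sub_self, pow_zero, one_mul, ← h, Nat.sub_zero,
        ← pow_succ', Nat.sub_add_cancel (by omega)]
    · intro a _ ha
      have ha' : a.val ≠ n - 1 := fun h => ha (Fin.ext h)
      rw [PiM_apply, if_neg (by omega), if_neg (by omega), mul_zero, add_zero, mul_zero]
    · intro h; exact absurd (Finset.mem_univ _) h
  · have hcn := c.isLt
    rw [Finset.sum_eq_single (⟨c.val - 1, by omega⟩ : Fin n)]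
    · rw [PiM_apply]
      simp only [uu]
      rw [if_pos (by omega), if_neg (by omega), mul_zero, add_zero, mul_one, ← pow_succ']
      congr 1
      omega
    · intro a _ ha
      have ha' : a.val ≠ c.val - 1 := fun h => ha (Fin.ext h)
      rw [PiM_apply, if_neg (by omega), if_neg (by omega), mul_zero, add_zero, mul_zero]
    · intro h; exact absurd (Finset.mem_univ _) h

theorem vv_eig (hn : 2 ≤ n) (q : ℕ) {ω : S} (h : ω ^ n = q) : (1 + PiM R q n n).map φ *ᵥ vv n ω = (1 + ω) • vv n ω := by
  have h1 := map_PiM φ q n n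
  rw [RingHom.mapMatrix_apply] at h1
  rw [h1, Matrix.add_mulVec, Matrix.one_mulVec, add_smul, one_smul]
  congr 1
  ext c
  rw [Matrix.mulVec, dotProduct, Pi.smul_apply, smul_eq_mul]
  have hcn := c.isLt
  rcases eq_or_ne c.val (n - 1) with hc | hc
  · rw [Finset.sum_eq_single (⟨0, by omega⟩ : Fin n)]
    · have e1 : PiM S q n n c (⟨0, by omega⟩ : Fin n) = q := by
        rw [PiM_apply]
        dsimp only
        rw [if_neg (by omega), if_pos (by omega), zero_add, mul_one]
      rw [e1]
      simp only [vv]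
      rw [hc, pow_zero, mul_one, ← h, ← pow_succ', Nat.sub_add_cancel (by omega)]
    · intro a _ ha
      have ha' : a.val ≠ 0 := fun h => ha (Fin.ext h)
      rw [PiM_apply, if_neg (by omega), if_neg (by omega), mul_zero, add_zero, zero_mul]
    · intro h; exact absurd (Finset.mem_univ _) h
  · rw [Finset.sum_eq_single (⟨c.val + 1, by omega⟩ : Fin n)]
    · have e1 : PiM S q n n c (⟨c.val + 1, by omega⟩ : Fin n) = 1 := by
        rw [PiM_apply]
        dsimp only
        rw [if_pos (by omega), if_neg (by omega), mul_zero, add_zero]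
      rw [e1]
      simp only [vv]
      rw [one_mul, ← pow_succ']
    · intro a _ ha
      have ha' : a.val ≠ c.val + 1 := fun h => ha (Fin.ext h)
      rw [PiM_apply, if_neg (by omega), if_neg (by omega), mul_zero, add_zero, zero_mul]
    · intro h; exact absurd (Finset.mem_univ _) h

variable (R n) in
/-- the corner matrix `E_{n-1,0}` -/
def Vc : Matrix (Fin n) (Fin n) R := fun a b => if a.val + 1 = n ∧ b.val = 0 then 1 else 0

theorem FF_Vc (hn : 2 ≤ n) (ω ω' : S) : FF φ (uu n ω) (vv n ω') (Vc R n) = 1 := by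
  unfold FF
  rw [dotProduct, Finset.sum_eq_single (⟨n - 1, by omega⟩ : Fin n)]
  · rw [Matrix.mulVec, dotProduct, Finset.sum_eq_single (⟨0, by omega⟩ : Fin n)]
    · simp only [uu, vv, Vc, Matrix.map_apply]
      rw [if_pos ⟨by omega, trivial⟩]
      simp
    · intro b _ hb
      have hb' : b.val ≠ 0 := fun h => hb (Fin.ext h)
      simp only [Vc, Matrix.map_apply]
      rw [if_neg (by omega), map_zero, zero_mul]
    · intro h; exact absurd (Finset.mem_univ _) h
  · intro a _ ha
    have ha' : a.val ≠ n - 1 := fun h => ha (Fin.ext h)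
    rw [Matrix.mulVec, dotProduct, Finset.sum_eq_zero, mul_zero]
    intro b _
    simp only [Vc, Matrix.map_apply]
    rw [if_neg (by omega), map_zero, zero_mul]
  · intro h; exact absurd (Finset.mem_univ _) h

end

end Pool.Agent.Helper43Reg2
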