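import Mathlib
import Pool.Agent.Helper24_Reg.Large

/-! Metabelian pairs: if `q^2 = 0` and the pair `x`, `1 + qV` satisfies Hall's condition, then
`q (∑ c^k) V = q (p V + p D f(D) V)` where `c` is conjugation by `x` and `D = c - 1`. -/

namespace Pool.Agent.Helper43Reg2

open Finset Matrix Polynomial Pool.Agent.Helper24Reg
open scoped commutatorElement

section pair
variable {R : Type*} [CommRing R] {n : ℕ}

theorem oneq_conj' (q : R) (hq : q * q = 0) (x : GL (Fin n) R) (A : Matrix (Fin n) (Fin n) R) :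
    x⁻¹ * oneq q hq A * x = oneq q hq (conjL R x A) := by
  apply Units.ext
  rw [Units.val_mul, Units.val_mul]
  change (x⁻¹).1 * (1 + q • A) * x.1 = 1 + q • ((x⁻¹).1 * (A * x.1))
  rw [mul_add, mul_one, add_mul, Units.inv_mul, Matrix.mul_smul, Matrix.smul_mul, mul_assoc]

theorem x_mul_pow (q : R) (hq : q * q = 0) (x : GL (Fin n) R) (A : Matrix (Fin n) (Fin n) R) (t : ℕ) :
    (x * oneq q hq A) ^ t = x ^ t * oneq q hq ((∑ k ∈ range t, (conjL R x) ^ k) A) := by
  induction t with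
  | zero =>
    rw [pow_zero, pow_zero, one_mul]
    apply Units.ext
    change (1 : Matrix (Fin n) (Fin n) R) = 1 + q • ((∑ k ∈ range 0, (conjL R x) ^ k) A)
    rw [range_zero, sum_empty, LinearMap.zero_apply, smul_zero, add_zero]
  | succ t ih =>
    rw [pow_succ, ih]
    have e : x ^ t * oneq q hq ((∑ k ∈ range t, (conjL R x) ^ k) A) * (x * oneq q hq A) =
        x ^ (t + 1) * ((x⁻¹ * oneq q hq ((∑ k ∈ range t, (conjL R x) ^ k) A) * x) * oneq q hq A) := by
      rw [pow_succ]; group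
    rw [e, oneq_conj', oneq_mul]
    congr 2
    rw [Finset.sum_range_succ', pow_zero, LinearMap.add_apply, Module.End.one_apply]
    congr 1
    rw [← Module.End.mul_apply, Finset.mul_sum]
    simp only [pow_succ']

/-- the subgroup of the `1 + q D f(D) V` -/
def KG (q : R) (hq : q * q = 0) (x : GL (Fin n) R) (V : Matrix (Fin n) (Fin n) R) : Subgroup (GL (Fin n) R) where
  carrier := {h | ∃ f : R[X], h = oneq q hq (aeval (DL R x) (X * f) V)}
  mul_mem' := by
    rintro _ _ ⟨f, rfl⟩ ⟨g, rfl⟩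
    exact ⟨f + g, by rw [oneq_mul, mul_add, map_add, LinearMap.add_apply]⟩
  one_mem' := ⟨0, by
    apply Units.ext
    change (1 : Matrix (Fin n) (Fin n) R) = 1 + q • (aeval (DL R x) (X * 0) V)
    rw [mul_zero, map_zero, LinearMap.zero_apply, smul_zero, add_zero]⟩
  inv_mem' := by
    rintro _ ⟨f, rfl⟩
    refine ⟨-f, ?_⟩
    rw [oneq_inv, mul_neg, map_neg, LinearMap.neg_apply]

theorem prod_pow_KG (p : ℕ) (q : R) (hq : q * q = 0) (x : GL (Fin n) R) (V : Matrix (Fin n) (Fin n) R)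
    (l : List (GL (Fin n) R)) (hl : ∀ c ∈ l, c ∈ KG q hq x V) :
    ∃ f : R[X], (l.map (fun c => c ^ p)).prod = oneq q hq ((p : R) • aeval (DL R x) (X * f) V) := by
  induction l with
  | nil =>
    refine ⟨0, ?_⟩
    apply Units.ext
    change (1 : Matrix (Fin n) (Fin n) R) = 1 + q • ((p : R) • aeval (DL R x) (X * 0) V)
    rw [mul_zero, map_zero, LinearMap.zero_apply, smul_zero, smul_zero, add_zero]
  | cons c l ih =>
    obtain ⟨f, hf⟩ := ih fun c hc => hl c (List.mem_cons_of_mem _ hc)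
    obtain ⟨g, rfl⟩ := hl c List.mem_cons_self
    refine ⟨g + f, ?_⟩
    rw [List.map_cons, List.prod_cons, hf, oneq_pow, oneq_mul, mul_add, map_add, LinearMap.add_apply, smul_add]

/-- The polynomial extracted from Hall's condition. -/
theorem regPair_poly [Finite (GL (Fin n) R)] (p : ℕ) (q : R) (hq : q * q = 0) (x : GL (Fin n) R)
    (V : Matrix (Fin n) (Fin n) R) (h : RegPair p x (oneq q hq V)) :
    ∃ f : R[X], q • ((∑ k ∈ range p, (conjL R x) ^ k) V) =
      q • ((p : R) • V + (p : R) • aeval (DL R x) (X * f) V) := by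
  obtain ⟨l, hl, he⟩ := h
  have hcD : conjL R x = DL R x + 1 := by rw [DL, sub_add_cancel]
  have hKx : ∀ k ∈ KG q hq x V, x⁻¹ * k * x ∈ KG q hq x V := by
    rintro _ ⟨f, rfl⟩
    refine ⟨(X + 1) * f, ?_⟩
    rw [oneq_conj']
    congr 1
    rw [hcD, show (X : R[X]) * ((X + 1) * f) = (X + 1) * (X * f) by ring,
      map_mul (aeval (DL R x)) (X + 1) (X * f), map_add, aeval_X, map_one, Module.End.mul_apply]
  have hKy : ∀ (A : Matrix (Fin n) (Fin n) R), ∀ k ∈ KG q hq x V,
      oneq q hq A * k * (oneq q hq A)⁻¹ ∈ KG q hq x V := by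
    rintro A _ ⟨f, rfl⟩
    refine ⟨f, ?_⟩
    rw [oneq_inv, oneq_mul, oneq_mul]
    congr 1
    abel
  have hKy' : ∀ k ∈ KG q hq x V, (oneq q hq V)⁻¹ * k * oneq q hq V ∈ KG q hq x V := by
    intro k hk
    have := hKy (-V) k hk
    rwa [← oneq_inv, inv_inv] at this
  have hKx' := conj_mem_of_finite _ x hKx
  have hcomm0 : (oneq q hq V)⁻¹ * (x⁻¹ * oneq q hq V * x) ∈ KG q hq x V := by
    refine ⟨1, ?_⟩
    rw [oneq_conj', oneq_inv, oneq_mul, mul_one, aeval_X, hcD, LinearMap.add_apply, Module.End.one_apply]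
    congr 1
    abel
  have hcomm : ⁅x, oneq q hq V⁆ ∈ KG q hq x V := by
    have h4 := (KG q hq x V).inv_mem (hKx' _ (hKy V _ hcomm0))
    have e : (x * (oneq q hq V * ((oneq q hq V)⁻¹ * (x⁻¹ * oneq q hq V * x)) * (oneq q hq V)⁻¹) * x⁻¹)⁻¹ =
        ⁅x, oneq q hq V⁆ := by
      rw [commutatorElement_def]; group
    rw [e] at h4
    exact h4
  have hle := commutator_closure_le (KG q hq x V) x (oneq q hq V) hKx hKx' hKy' (hKy V) hcomm
  obtain ⟨f, hf⟩ := prod_pow_KG p q hq x V l (fun c hc => hle (hl c hc))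
  rw [hf, x_mul_pow, oneq_pow, mul_assoc, oneq_mul, mul_right_inj] at he
  refine ⟨f, ?_⟩
  have h1 := congrArg (fun w : GL (Fin n) R => w.1) he
  change 1 + q • _ = 1 + q • _ at h1
  exact add_left_cancel h1

/-- The normal form: `q Q(D) V = 0` with `Q = X^(p-1) + p X g`. -/
theorem regPair_poly' [Finite (GL (Fin n) R)] (p : ℕ) [hp : Fact p.Prime] (q : R) (hq : q * q = 0) (x : GL (Fin n) R)
    (V : Matrix (Fin n) (Fin n) R) (h : RegPair p x (oneq q hq V)) :
    ∃ g : R[X], q • aeval (DL R x) (X ^ (p - 1) + C (p : R) * (X * g)) V = 0 := by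
  obtain ⟨f, hf⟩ := regPair_poly p q hq x V h
  have hcc : ∀ t ∈ Ico 1 (p - 1), ∃ c : ℕ, p.choose (t + 1) = p * c := by
    intro t ht
    rw [Finset.mem_Ico] at ht
    exact hp.out.dvd_choose_self (by omega) (by omega)
  choose! c hc using hcc
  set k0 : R[X] := ∑ t ∈ Ico 1 (p - 1), C (c t : R) * X ^ (t - 1) with hk0
  have hsum : (∑ k ∈ range p, (conjL R x) ^ k) = aeval (DL R x) (C (p : R) + C (p : R) * (X * k0) + X ^ (p - 1)) := by
    have h1 : (∑ k ∈ range p, (X + 1 : R[X]) ^ k) = C (p : R) + C (p : R) * (X * k0) + X ^ (p - 1) := by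
      rw [geom_sum_conj (X + 1 : R[X]) p, add_sub_cancel_right]
      have hp2 := hp.out.two_le
      have h2 : ∑ k ∈ range p, (p.choose (k + 1) : R[X]) * X ^ k =
          (∑ k ∈ range (p - 1), (p.choose (k + 1) : R[X]) * X ^ k) + X ^ (p - 1) := by
        have : range p = range (p - 1 + 1) := by congr 1; omega
        rw [this, Finset.sum_range_succ, Nat.sub_add_cancel (by omega), Nat.choose_self, Nat.cast_one, one_mul]
      rw [h2, add_left_inj, Finset.range_eq_Ico, Finset.sum_eq_sum_Ico_succ_bot (by omega)]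
      congr 1
      · rw [zero_add, Nat.choose_one_right, pow_zero, mul_one, C_eq_natCast]
      · rw [hk0, Finset.mul_sum, Finset.mul_sum]
        refine Finset.sum_congr rfl fun t ht => ?_
        rw [hc t ht]
        rw [Finset.mem_Ico] at ht
        obtain ⟨t', rfl⟩ : ∃ t', t = t' + 1 := ⟨t - 1, by omega⟩
        simp only [Nat.add_sub_cancel, Nat.cast_mul, C_eq_natCast]
        ring
    rw [← h1, map_sum]
    refine Finset.sum_congr rfl fun k _ => ?_
    rw [map_pow, map_add, aeval_X, map_one, DL, sub_add_cancel]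
  refine ⟨k0 - f, ?_⟩
  have h3 : aeval (DL R x) (X ^ (p - 1) + C (p : R) * (X * (k0 - f))) V =
      (∑ k ∈ range p, (conjL R x) ^ k) V - ((p : R) • V + (p : R) • aeval (DL R x) (X * f) V) := by
    rw [hsum]
    have h4 : (X ^ (p - 1) + C (p : R) * (X * (k0 - f)) : R[X]) =
        (C (p : R) + C (p : R) * (X * k0) + X ^ (p - 1)) - (C (p : R) + C (p : R) * (X * f)) := by ring
    rw [h4, map_sub, LinearMap.sub_apply]
    congr 1
    rw [map_add, LinearMap.add_apply, map_mul, aeval_C, Module.End.mul_apply]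
    rfl
  rw [h3, smul_sub, hf, sub_self]

end pair

end Pool.Agent.Helper43Reg2
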