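import Mathlib
import Pool.Agent.Helper43_Reg2.Pair
import Pool.Agent.Helper43_Reg2.Dist
import Pool.Agent.Helper43_Reg2.Eval
import Pool.Agent.Helper43_Reg.Main

/-! Irregularity of `P_n(ℤ/p^m)` for `m ≥ 2r`, `r ≤ n`, `p ≤ n(r-1)+1`. -/

namespace Pool.Agent.Helper43Reg2

open Finset Matrix Polynomial Pool.Agent.Helper24Reg Pool.Agent.Helper43Reg

section
variable {p : ℕ} [hp : Fact p.Prime]

variable (p) in
/-- the embedding of the `p`-adic integers in the closed unit ball of the algebraic closure -/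
noncomputable def iotaO : ℤ_[p] →+* OO (PadicAlgCl p) :=
  RingHom.codRestrict ((algebraMap ℚ_[p] (PadicAlgCl p)).comp PadicInt.Coe.ringHom) (OO (PadicAlgCl p)) (fun x => by
    change ‖(algebraMap ℚ_[p] (PadicAlgCl p)) (x : ℚ_[p])‖ ≤ 1
    have := PadicAlgCl.norm_extends p (x : ℚ_[p])
    rw [this]
    exact x.2)

theorem norm_natCast_algCl (k : ℕ) : ‖(k : PadicAlgCl p)‖ = ‖(k : ℚ_[p])‖ := by
  have := PadicAlgCl.norm_extends p (k : ℚ_[p])
  rw [map_natCast] at this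
  exact this

theorem exists_std {n : ℕ} (hodd : Odd p) (hn : 2 ≤ n) (hcop : Nat.Coprime p n) :
    ∃ ϖ : PadicAlgCl p, Std p n ϖ := by
  obtain ⟨ϖ, hϖ⟩ := IsAlgClosed.exists_pow_nat_eq (p : PadicAlgCl p) (show 0 < n by omega)
  refine ⟨ϖ, hp.out, hodd, hn, hcop, ?_, hϖ, ?_, ?_⟩
  · rw [norm_natCast_algCl, Padic.norm_natCast_eq_one_iff]
    exact hcop
  · rw [norm_natCast_algCl, Padic.norm_p]
    exact inv_lt_one_of_one_lt₀ (by exact_mod_cast hp.out.one_lt)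
  · rw [norm_natCast_algCl, Padic.norm_p]
    exact inv_pos.2 (by exact_mod_cast hp.out.pos)

theorem exists_roots (n : ℕ) (hn : 0 < n) : ∃ R : Finset (PadicAlgCl p), (∀ α, α ∈ R ↔ α ^ n = 1) ∧ R.card = n := by
  have hne : NeZero ((n : ℕ) : PadicAlgCl p) := ⟨Nat.cast_ne_zero.2 (by omega)⟩
  obtain ⟨ζ, hζ⟩ := HasEnoughRootsOfUnity.exists_primitiveRoot (PadicAlgCl p) n
  refine ⟨nthRootsFinset n 1, fun α => mem_nthRootsFinset hn 1, hζ.card_nthRootsFinset⟩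

theorem norm_iotaO_pow (r : ℕ) : ‖((iotaO p ((p : ℤ_[p]) ^ r) : OO (PadicAlgCl p)) : PadicAlgCl p)‖ = ‖(p : PadicAlgCl p)‖ ^ r := by
  rw [map_pow, map_natCast]
  push_cast
  rw [norm_pow]

/-- The `p`-adic statement: no polynomial `X^(p-1) + pXg` in `D` kills the corner matrix modulo `p^r`. -/
theorem padic_contra {n r : ℕ} (hodd : Odd p) (hn : 2 ≤ n) (hcop : Nat.Coprime p n) (hpn : p + n ≤ n ^ 2 + 1)
    (hr : p + n ≤ n * r + 1) (x : GL (Fin n) ℤ_[p]) (hx : x.1 = 1 + PiM ℤ_[p] p n n) (g : ℤ_[p][X])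
    (h : ∀ a b, (p : ℤ_[p]) ^ r ∣ (aeval (DL ℤ_[p] x) (X ^ (p - 1) + C (p : ℤ_[p]) * (X * g)) (Vc ℤ_[p] n)) a b) :
    False := by
  classical
  obtain ⟨ϖ, S⟩ := exists_std (p := p) hodd hn hcop
  obtain ⟨R, hR, hRc⟩ := exists_roots (p := p) n (by omega)
  have hn0 : n ≠ 0 := by omega
  set μ : PadicAlgCl p × PadicAlgCl p → OO (PadicAlgCl p) := fun z => if h : ‖mu ϖ z‖ ≤ 1 then ⟨mu ϖ z, h⟩ else 0 with hμdef
  have hμ : ∀ z, RT n z → ((μ z : OO (PadicAlgCl p)) : PadicAlgCl p) = mu ϖ z := by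
    intro z hz
    simp only [hμdef]
    rw [dif_pos (S.norm_mu hz).le]
  refine S.contra R hR hRc hpn r hr (g.map (iotaO p)) μ hμ ?_
  intro z hz
  have hle : ∀ α : PadicAlgCl p, α ^ n = 1 → ‖α * ϖ‖ ≤ 1 := by
    intro α hα
    rw [norm_mul, norm_root hn0 hα, one_mul]
    exact S.rho_lt.le
  set ω : OO (PadicAlgCl p) := ⟨z.1 * ϖ, hle _ hz.1⟩ with hω
  set ω' : OO (PadicAlgCl p) := ⟨z.2 * ϖ, hle _ hz.2⟩ with hω'
  have hωn : ω ^ n = ((p : ℕ) : OO (PadicAlgCl p)) := by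
    apply Subtype.ext
    push_cast
    rw [hω]
    change (z.1 * ϖ) ^ n = _
    rw [mul_pow, hz.1, one_mul, S.hϖ]
  have hωn' : ω' ^ n = ((p : ℕ) : OO (PadicAlgCl p)) := by
    apply Subtype.ext
    push_cast
    rw [hω']
    change (z.2 * ϖ) ^ n = _
    rw [mul_pow, hz.2, one_mul, S.hϖ]
  have hlam : (1 + ω) ≠ 0 := by
    intro h0
    exact S.den_ne hz.1 (congrArg Subtype.val h0)
  have hmul : (1 + ω) * μ z = (1 + ω') - (1 + ω) := by
    apply Subtype.ext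
    push_cast
    rw [hμ z hz]
    change (1 + z.1 * ϖ) * mu ϖ z = (1 + z.2 * ϖ) - (1 + z.1 * ϖ)
    unfold mu
    rw [mul_div_cancel₀ _ (S.den_ne hz.1)]
    ring
  have key := FF_aeval (iotaO p) (u := uu n ω) (v := vv n ω') (μ := μ z) (DL ℤ_[p] x)
    (FF_DL (iotaO p) x (by rw [hx]; exact uu_eig (iotaO p) hn p hωn) (by rw [hx]; exact vv_eig (iotaO p) hn p hωn') hlam hmul)
    (X ^ (p - 1) + C (p : ℤ_[p]) * (X * g)) (Vc ℤ_[p] n)
  rw [FF_Vc (iotaO p) hn, mul_one] at key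
  have hQ : (X ^ (p - 1) + C (p : ℤ_[p]) * (X * g)).map (iotaO p) =
      X ^ (p - 1) + C (p : OO (PadicAlgCl p)) * (X * g.map (iotaO p)) := by
    rw [Polynomial.map_add, Polynomial.map_mul, Polynomial.map_mul, Polynomial.map_pow, map_X, map_C, map_natCast]
  rw [hQ] at key
  rw [← key]
  choose M' hM' using h
  have hM : aeval (DL ℤ_[p] x) (X ^ (p - 1) + C (p : ℤ_[p]) * (X * g)) (Vc ℤ_[p] n) =
      (p : ℤ_[p]) ^ r • (Matrix.of M' : Matrix (Fin n) (Fin n) ℤ_[p]) := by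
    ext a b
    rw [hM' a b, Matrix.smul_apply, smul_eq_mul, Matrix.of_apply]
  rw [hM, FF_smul]
  push_cast
  rw [norm_mul]
  have h3 : ‖((iotaO p ((p : ℤ_[p]) ^ r) : OO (PadicAlgCl p)) : PadicAlgCl p)‖ = ‖(p : PadicAlgCl p)‖ ^ r := norm_iotaO_pow r
  rw [h3]
  exact mul_le_of_le_one_right (pow_nonneg (norm_nonneg _) _) (FF (iotaO p) (uu n ω) (vv n ω') (Matrix.of M')).2

theorem isUnit_one_add_PiM {n m : ℕ} (hm : 1 ≤ m) (hn : 2 ≤ n) : IsUnit (1 + PiM ℤ_[p] p n n) := by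
  have hnt : Nontrivial (ZMod (p ^ m)) := ZMod.nontrivial_iff.2 (by
    have := Nat.one_lt_pow (by omega : m ≠ 0) hp.out.one_lt
    omega)
  rw [Matrix.isUnit_iff_isUnit_det]
  have hloc : IsLocalHom (PadicInt.toZModPow (p := p) m) := IsLocalHom.of_surjective _ (ZMod.ringHom_surjective _)
  apply hloc.map_nonunit
  have h1 := map_PiM (PadicInt.toZModPow (p := p) m) p n n
  rw [RingHom.map_det, h1]
  exact (Matrix.isUnit_iff_isUnit_det _).1 (PCond.isUnit (by omega) (PCond_one_add_PiM p n n hn))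

/-- **Irregularity.** If `r ≤ n`, `2r ≤ m` and `p ≤ n(r-1)+1` then `P_n(ℤ/p^m)` is irregular. -/
theorem not_regular_two_r (p m n r : ℕ) [hp : Fact p.Prime] (hrn : r ≤ n) (hm : 2 * r ≤ m)
    (hr : p + n ≤ n * r + 1) : ¬ IsRegular p (P p m n) := by
  intro hreg
  have hp2 := hp.out.two_le
  have hr2 : 2 ≤ r := by
    by_contra h
    have h1 : n * r ≤ n * 1 := Nat.mul_le_mul_left n (by omega)
    omega
  have hn : 2 ≤ n := by omega
  by_cases h3n : p + 2 ≤ 3 * n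
  · exact not_regular_of_le p m n (by omega) h3n hreg
  have hp5 : 5 ≤ p := by omega
  have hodd : Odd p := hp.out.odd_of_ne_two (by omega)
  have hcop : Nat.Coprime p n := Nat.coprime_of_lt_prime (by omega) (by omega) hp.out
  have hpn : p + n ≤ n ^ 2 + 1 := by
    have : n * r ≤ n * n := Nat.mul_le_mul_left n hrn
    rw [sq]
    omega
  have hne : NeZero (p ^ m) := ⟨pow_ne_zero _ hp.out.ne_zero⟩
  have hfin : Finite (GL (Fin n) (ZMod (p ^ m))) := by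
    unfold Matrix.GeneralLinearGroup
    infer_instance
  obtain ⟨q, hqdef⟩ : ∃ q : ZMod (p ^ m), q = ((p : ℕ) : ZMod (p ^ m)) ^ (m - r) := ⟨_, rfl⟩
  have hq : q * q = 0 := by
    rw [hqdef, ← pow_add]
    obtain ⟨c, hc⟩ : ∃ c, m - r + (m - r) = m + c := ⟨m - 2 * r, by omega⟩
    rw [hc, pow_add, cast_pow_eq_zero, zero_mul]
  have hpq : ((p : ℕ) : ZMod (p ^ m)) ∣ q := by
    rw [hqdef]
    exact dvd_pow_self _ (by omega)
  set x0 : GL (Fin n) ℤ_[p] := (isUnit_one_add_PiM (p := p) (n := n) (m := m) (by omega) hn).unit with hx0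
  have hx0v : x0.1 = 1 + PiM ℤ_[p] p n n := rfl
  set x : GL (Fin n) (ZMod (p ^ m)) := Matrix.GeneralLinearGroup.map (PadicInt.toZModPow m) x0 with hx
  have hxv : x.1 = 1 + PiM (ZMod (p ^ m)) p n n := by
    have h1 := map_PiM (PadicInt.toZModPow (p := p) m) p n n
    rw [RingHom.mapMatrix_apply] at h1
    rw [← h1]
    rfl
  have hxP : x ∈ P p m n := by
    rw [mem_P, hxv]
    exact PCond_one_add_PiM p n n hn
  obtain ⟨V, hV⟩ : ∃ V : Matrix (Fin n) (Fin n) (ZMod (p ^ m)), V = Vc (ZMod (p ^ m)) n := ⟨_, rfl⟩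
  have hyP : oneq q hq V ∈ P p m n := by
    rw [mem_P]
    refine ⟨fun i => ?_, fun i j hij => ?_⟩
    · change ((p : ℕ) : ZMod (p ^ m)) ∣ (1 + q • V) i i - 1
      rw [Matrix.add_apply, Matrix.one_apply_eq, add_sub_cancel_left, Matrix.smul_apply, smul_eq_mul]
      exact Dvd.dvd.mul_right hpq _
    · change ((p : ℕ) : ZMod (p ^ m)) ∣ (1 + q • V) i j
      rw [Matrix.add_apply, Matrix.one_apply_ne (ne_of_gt hij), zero_add, Matrix.smul_apply, smul_eq_mul]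
      exact Dvd.dvd.mul_right hpq _
  have hpair := (hreg ⟨x, hxP⟩ ⟨oneq q hq V, hyP⟩).map (P p m n).subtype
  change RegPair p x (oneq q hq V) at hpair
  obtain ⟨g, hg⟩ := regPair_poly' p q hq x V hpair
  obtain ⟨g', hg'⟩ := Polynomial.map_surjective (PadicInt.toZModPow (p := p) m) (ZMod.ringHom_surjective _) g
  refine padic_contra hodd hn hcop hpn hr x0 hx0v g' ?_
  intro a b
  have h1 := map_aeval_DL (PadicInt.toZModPow (p := p) m) x0 (X ^ (p - 1) + C (p : ℤ_[p]) * (X * g')) (Vc ℤ_[p] n)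
  have h2 : (X ^ (p - 1) + C (p : ℤ_[p]) * (X * g')).map (PadicInt.toZModPow (p := p) m) =
      X ^ (p - 1) + C ((p : ℕ) : ZMod (p ^ m)) * (X * g) := by
    rw [Polynomial.map_add, Polynomial.map_mul, Polynomial.map_mul, Polynomial.map_pow, map_X, map_C, map_natCast, hg']
  have h3 : (Vc ℤ_[p] n).map (PadicInt.toZModPow (p := p) m) = V := by
    rw [hV]
    ext i j
    rw [Matrix.map_apply]
    simp only [Vc]
    split_ifs <;> simp
  rw [h2, h3, ← hx] at h1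
  rw [← h1] at hg
  have h4 := congrFun (congrFun hg a) b
  rw [Matrix.smul_apply, Matrix.map_apply, smul_eq_mul, Matrix.zero_apply, hqdef] at h4
  generalize (aeval (DL ℤ_[p] x0) (X ^ (p - 1) + C (p : ℤ_[p]) * (X * g')) (Vc ℤ_[p] n)) a b = w at h4 ⊢
  have h5 : PadicInt.toZModPow m ((p : ℤ_[p]) ^ (m - r) * w) = 0 := by
    rw [map_mul, map_pow, map_natCast]
    exact h4
  rw [toZModPow_eq_zero_iff] at h5
  have h6 : m = (m - r) + r := by omega
  rw [h6, pow_add, Nat.add_sub_cancel] at h5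
  exact (mul_dvd_mul_iff_left (pow_ne_zero _ (Nat.cast_ne_zero.2 hp.out.ne_zero))).1 h5

end

end Pool.Agent.Helper43Reg2
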